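import Pool.Agent.N743.MT.Opp

/-!
# Clusters of primes in five eighteenths of consecutive Oppermann intervals

Oppermann's intervals are the intervals `J_i` between the consecutive quarter squares `⌊i²/4⌋` and `⌊(i+1)²/4⌋`:
`J_{2n-1} = (n² - n, n²)` and `J_{2n} = (n², n² + n)`.  The k-fold conjecture says that each of them contains
at least `k` primes, with finitely many exceptions.

Let `k`, `l`, `q` be given and let `a` be prime to `q`. There are `C`, `D` and `c > 0` such that at every large
scale `N` there are `l` consecutive Oppermann intervals `J_i, …, J_{i+l-1}`, `N ≤ i ≤ 10 q N`, at least `5 l / 18`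
of which contain not only `k` primes, but at least `c i / (log i) ^ D` subintervals `[y, y + C]` of the bounded
length `C` with at least `k` primes congruent to `a` modulo `q`. For example, for every `k` there are such
clusters in two of some four consecutive intervals, in three of some eight consecutive intervals, and so on.

The proof uses the coloured theorem of Maynard-Tao type with the constant `18 / 5`, uniform in the shifts
(`Pool.Agent.Y827.RO.lamR0`, from the files this team started from): many translates `n + t_j` by the terms
`t_j` of an arithmetic progression whose difference is small compared with the length of the intervals carry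
clusters simultaneously, and if fewer than `5 l / 18` of any `l` consecutive intervals were rich, too few of
the `n + t_j` would lie in rich intervals.
-/

set_option autoImplicit false

namespace Pool.Agent.Results.MP_1e9cc8_nt.ClustersInFiveEighteenths

open Finset Filter

/-- the quarter squares `⌊i² / 4⌋` -/
def quarter (i : ℕ) : ℕ := i ^ 2 / 4

/-- `[y, y + C]` contains at least `k` primes congruent to `a` modulo `q` -/
def Cluster (q a k C y : ℕ) : Prop :=
  k ≤ ((Icc y (y + C)).filter (fun p => p.Prime ∧ p ≡ a [MOD q])).card

open Classical in
/-- the number of the `y` such that `[y, y + C]` is contained in the open interval `J_i` between the quarter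
squares with the numbers `i` and `i + 1` and contains at least `k` primes congruent to `a` modulo `q` -/
noncomputable def clusters (q a k C i : ℕ) : ℕ :=
  ((Ioo (quarter i) (quarter (i + 1))).filter (fun y => y + C < quarter (i + 1) ∧ Cluster q a k C y)).card

/-- the interval `J_i` contains at least `c i / (log i) ^ D` clusters -/
def Rich (q a k C D : ℕ) (c : ℝ) (i : ℕ) : Prop := c * (i / Real.log i ^ D) ≤ (clusters q a k C i : ℝ)

open Classical in
/-- (1) The quarter squares are the endpoints of Oppermann's intervals. (2) For all `k`, `l ≥ 1`, `q ≥ 1` and `a`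
prime to `q` there are `C`, `D` and `c > 0` such that for all large `N` there is `i ≥ N` with `i + l ≤ 10 q N` such that
at least `5 l / 18` of the `l` consecutive Oppermann intervals `J_i, …, J_{i+l-1}` contain at least
`c j / (log j) ^ D` (`j` the number of the interval) clusters of `k` primes congruent to `a` modulo `q` in
intervals of length `C`. -/
theorem result :
    (∀ n : ℕ, 1 ≤ n → quarter (2 * n - 1) = n ^ 2 - n ∧ quarter (2 * n) = n ^ 2 ∧
      quarter (2 * n + 1) = n ^ 2 + n) ∧
    ∀ k l q a : ℕ, 1 ≤ l → 1 ≤ q → a.Coprime q → ∃ C D : ℕ, ∃ c : ℝ, 0 < c ∧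
      ∀ᶠ N : ℕ in atTop, ∃ i : ℕ, N ≤ i ∧ i + l ≤ 10 * q * N ∧
        5 * l ≤ 18 * ((range l).filter (fun j => Rich q a k C D c (i + j))).card := by
  refine ⟨fun n hn => ⟨?_, Pool.Agent.N743.MT.Qs_even n, Pool.Agent.N743.MT.Qs_odd n⟩, ?_⟩
  · obtain ⟨m, rfl⟩ := Nat.exists_eq_add_of_le' hn
    have h1 : 2 * (m + 1) - 1 = 2 * m + 1 := by omega
    rw [h1]
    refine (Pool.Agent.N743.MT.Qs_odd m).trans ?_
    have h2 : (m + 1) ^ 2 = m ^ 2 + 2 * m + 1 := by ring
    omega
  · intro k l q a hl hq ha
    exact Pool.Agent.N743.MT.opp k l q a hl hq ha

end Pool.Agent.Results.MP_1e9cc8_nt.ClustersInFiveEighteenths
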