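import Mathlib
import Pool.Agent.N735.CL.Kf4

/-!
# The `k`-fold Oppermann conjecture, for almost all patterns

The problem asks whether each of the two intervals `[n² - n, n²]`, `[n², n² + n]` contains `k` primes for all
large `n`: the primes `n² - n + i` and `n² + i`, `i ≤ n`. We replace `1, 2, 3, ...` by an arbitrary
pattern `h_1, h_2, ...` of numbers from `{1, ..., N²}`, the same for all `n ≤ N`, and determine for
almost all patterns how many members of the pattern are needed: the least `w`, such that for all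
`n ≤ N` there are at least `k` primes among `n² - n + h_i`, `i ≤ w`, and at least `k` primes among
`n² + h_i`, `i ≤ w`, is `2 log² N + 2 (k - 1) log N log log N + O(log N)`.

The number of the `n` with exactly `k - 1` primes among `n² + h_i` is treated by the second moment
method. The pair correlations are not negligible, because the number of the squares is larger than
every power of the length of the patterns; hence the squares of the multiples of
`W = ∏_{p ≤ w} p` are considered, and the patterns are weighted by a product measure, which depends on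
the residues modulo `W`. The prime number theorem and the sieve bound are from the starting files.
-/

set_option autoImplicit false
set_option maxHeartbeats 1000000

namespace Pool.Agent.Results.MP_1e9cc8_nt.KFoldOppermannForPatterns

open Finset Filter Topology

/-- the patterns: the sequences of `K` numbers from `{1, ..., X}` -/
def patterns (X K : ℕ) : Finset (Fin K → ℕ) := Fintype.piFinset fun _ => Icc 1 X

open Classical in
/-- the proportion of the patterns which have the property `B` -/
noncomputable def proportion (X K : ℕ) (B : (Fin K → ℕ) → Prop) : ℝ :=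
  (((patterns X K).filter B).card : ℝ) / (patterns X K).card

/-- the number of the primes among `m + h_i`, `i = 1, ..., w` -/
def cnt {K : ℕ} (h : Fin K → ℕ) (m w : ℕ) : ℕ := (univ.filter fun i : Fin K => (i : ℕ) < w ∧ (m + h i).Prime).card

/-- the first `w` members of the pattern suffice for `k` primes above `n² - n` and for `k` primes
above `n²`, for all `n ≤ N` -/
def Enough {K : ℕ} (k N : ℕ) (h : Fin K → ℕ) (w : ℕ) : Prop :=
  ∀ n ∈ Icc 1 N, k ≤ cnt h (n ^ 2 - n) w ∧ k ≤ cnt h (n ^ 2) w

/-- the least `w` which suffices -/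
noncomputable def need {K : ℕ} (k N : ℕ) (h : Fin K → ℕ) : ℕ := sInf {w | Enough k N h w}

/-- the pattern `1, 2, 3, ...` of the problem -/
def oneTwo (K : ℕ) : Fin K → ℕ := fun i => i + 1

lemma prop_eq {X K : ℕ} (B : (Fin K → ℕ) → Prop) : proportion X K B = Pool.Agent.N735.CL.PK X K B := by
  classical
  rw [Pool.Agent.N735.CL.PK_eq]
  unfold proportion
  have h0 : patterns X K = Pool.Agent.N735.CL.Om X K := rfl
  rw [h0, Pool.Agent.N735.CL.card_Om]
  push_cast
  congr!

lemma cnt_oneTwo {K w : ℕ} (hw : w ≤ K) (m : ℕ) :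
    cnt (oneTwo K) m w = ((Ioc m (m + w)).filter Nat.Prime).card := by
  unfold cnt oneTwo
  refine card_bij' (fun i _ => m + (i + 1)) (fun p hp => (⟨p - m - 1, ?_⟩ : Fin K)) ?_ ?_ ?_ ?_
  · rw [mem_filter, mem_Ioc] at hp
    omega
  · intro i hi
    rw [mem_filter] at hi ⊢
    rw [mem_Ioc]
    exact ⟨by omega, hi.2.2⟩
  · intro p hp
    rw [mem_filter, mem_Ioc] at hp
    rw [mem_filter]
    refine ⟨mem_univ _, ?_, ?_⟩
    · show p - m - 1 < w
      omega
    · have e : m + (p - m - 1 + 1) = p := by omega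
      show (m + (p - m - 1 + 1)).Prime
      rw [e]; exact hp.2
  · intro i _
    ext
    show m + ((i : ℕ) + 1) - m - 1 = i
    omega
  · intro p hp
    rw [mem_filter, mem_Ioc] at hp
    show m + (p - m - 1 + 1) = p
    omega

lemma mul_not_prime {a b : ℕ} (ha : 2 ≤ a) (hb : 2 ≤ b) : ¬ (a * b).Prime :=
  Nat.not_prime_mul (by omega) (by omega)

theorem result :
    (∀ n K : ℕ, 3 ≤ n → n ≤ K → cnt (oneTwo K) (n ^ 2 - n) n = ((Icc (n ^ 2 - n) (n ^ 2)).filter Nat.Prime).card ∧
      cnt (oneTwo K) (n ^ 2) n = ((Icc (n ^ 2) (n ^ 2 + n)).filter Nat.Prime).card) ∧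
    (∀ k : ℕ, 1 ≤ k → ∀ θ : ℝ, 0 < θ → ∃ C : ℝ, 0 < C ∧ ∃ N₀ : ℕ, ∀ N : ℕ, N₀ ≤ N → ∀ K : ℕ,
      2 * Real.log N ^ 2 + 2 * (k - 1) * Real.log N * Real.log (Real.log N) + C * Real.log N ≤ K →
        1 - θ ≤ proportion (N ^ 2) K (fun h => Enough k N h (need k N h) ∧
          |(need k N h : ℝ) - (2 * Real.log N ^ 2 + 2 * (k - 1) * Real.log N * Real.log (Real.log N))| ≤ C * Real.log N)) := by
  constructor
  · intro n K hn hnK
    have hsq : n ≤ n ^ 2 := by nlinarith
    have key : ∀ m : ℕ, ¬ m.Prime → cnt (oneTwo K) m n = ((Icc m (m + n)).filter Nat.Prime).card := by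
      intro m hm
      rw [cnt_oneTwo hnK]
      congr 1
      ext p
      rw [mem_filter, mem_filter, mem_Ioc, mem_Icc]
      constructor
      · rintro ⟨h1, h2⟩
        exact ⟨⟨h1.1.le, h1.2⟩, h2⟩
      · rintro ⟨h1, h2⟩
        refine ⟨⟨lt_of_le_of_ne h1.1 ?_, h1.2⟩, h2⟩
        rintro rfl
        exact hm h2
    constructor
    · have e : n ^ 2 - n = n * (n - 1) := by
        rw [Nat.mul_sub, mul_one, sq]
      rw [key _ (by rw [e]; exact mul_not_prime (by omega) (by omega))]
      rw [Nat.sub_add_cancel hsq]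
    · exact key _ (by rw [sq]; exact mul_not_prime (by omega) (by omega))
  · intro k hk θ hθ
    obtain ⟨s, rfl⟩ : ∃ s, k = s + 1 := ⟨k - 1, by omega⟩
    obtain ⟨C, hC, hev⟩ := Pool.Agent.N735.CL.kfold s θ hθ
    rw [eventually_atTop] at hev
    obtain ⟨N₀, hN₀⟩ := hev
    obtain ⟨N₁, hN₁⟩ := eventually_atTop.1 (Pool.Agent.N735.CL.tends_log.eventually_ge_atTop (C + 1))
    refine ⟨C + 1, by positivity, max N₀ (max N₁ 3), fun N hN K hK => ?_⟩
    have hN0 : N₀ ≤ N := (le_max_left _ _).trans hN
    have hN1 : N₁ ≤ N := ((le_max_left _ _).trans (le_max_right _ _)).trans hN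
    have hN3 : 3 ≤ N := ((le_max_right _ _).trans (le_max_right _ _)).trans hN
    have hL := hN₁ N hN1
    have hcast : ((s + 1 : ℕ) : ℝ) - 1 = s := by push_cast; ring
    rw [hcast] at hK ⊢
    set l := Real.log (N : ℝ) with hl
    have hl1 : 1 ≤ l := by linarith
    have hll : 0 ≤ 2 * s * l * Real.log l := by
      have : 0 ≤ Real.log l := Real.log_nonneg hl1
      positivity
    set B := 2 * l ^ 2 + 2 * s * l * Real.log l with hB
    have hX : 1 ≤ N ^ 2 := Nat.one_le_pow _ _ (by omega)
    have h1 := hN₀ N hN0 K (by nlinarith)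
    rw [← hB] at h1
    rw [prop_eq]
    have h2 : (1 : ℝ) ≤ Pool.Agent.N735.CL.PK (N ^ 2) K (fun h =>
        (Enough (s + 1) N h (need (s + 1) N h) ∧ |(need (s + 1) N h : ℝ) - B| ≤ (C + 1) * l) ∨
        ¬ ((∀ w : ℕ, B + C * l ≤ w → ∀ n ∈ Icc 1 N, s + 1 ≤ Pool.Agent.N735.CL.cntK h (n ^ 2 - n) w ∧
            s + 1 ≤ Pool.Agent.N735.CL.cntK h (n ^ 2) w) ∧
          (∀ w : ℕ, (w : ℝ) ≤ B - C * l → ∃ n ∈ Icc 1 N, N < 2 * n ∧ Pool.Agent.N735.CL.cntK h (n ^ 2) w ≤ s))) := by
      apply Pool.Agent.N735.CL.one_le_PK hX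
      intro h
      by_cases hc : (∀ w : ℕ, B + C * l ≤ w → ∀ n ∈ Icc 1 N, s + 1 ≤ Pool.Agent.N735.CL.cntK h (n ^ 2 - n) w ∧
            s + 1 ≤ Pool.Agent.N735.CL.cntK h (n ^ 2) w) ∧
          (∀ w : ℕ, (w : ℝ) ≤ B - C * l → ∃ n ∈ Icc 1 N, N < 2 * n ∧ Pool.Agent.N735.CL.cntK h (n ^ 2) w ≤ s)
      · left
        obtain ⟨c1, c2⟩ := hc
        have hCl : 0 < C * l := by positivity
        have hB2 : 2 * l ^ 2 ≤ B := by linarith
        have hBCl : 0 ≤ B - C * l := by nlinarith
        set w1 := ⌈B + C * l⌉₊ with hw1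
        have hE : Enough (s + 1) N h w1 := c1 w1 (Nat.le_ceil _)
        have hne : {w | Enough (s + 1) N h w}.Nonempty := ⟨w1, hE⟩
        have hm : Enough (s + 1) N h (need (s + 1) N h) := Nat.sInf_mem hne
        have hle : need (s + 1) N h ≤ w1 := Nat.sInf_le hE
        refine ⟨hm, ?_⟩
        rw [abs_le]
        constructor
        · by_contra hcon
          push Not at hcon
          have hlt : (need (s + 1) N h : ℝ) ≤ B - C * l := by nlinarith
          obtain ⟨n, hn, _, hn3⟩ := c2 _ hlt
          have h4 : s + 1 ≤ Pool.Agent.N735.CL.cntK h (n ^ 2) (need (s + 1) N h) := (hm n hn).2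
          omega
        · have h3 : (w1 : ℝ) < B + C * l + 1 := Nat.ceil_lt_add_one (by linarith)
          have h4 : (need (s + 1) N h : ℝ) ≤ w1 := by exact_mod_cast hle
          nlinarith
      · right; exact hc
    have h3 := h2.trans (Pool.Agent.N735.CL.PK_or _ _)
    linarith

end Pool.Agent.Results.MP_1e9cc8_nt.KFoldOppermannForPatterns
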