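import Mathlib
import Pool.Agent.N740.HK.Trials
import Pool.Agent.N740.HK.Sch
import Pool.Agent.N317.SL.Win
import Pool.Agent.N886.SM.Opp

/-!
# The k-fold Oppermann statement in random models of the primes with sieving by small primes

The integers are decided one after the other.  An integer with a prime factor `p ≤ z(n)` is never
chosen, and the conditional probability of choosing `n + 1`, given the decisions up to `n`, is
asymptotic to `1 / (log n ∏ (1 - 1/p))`, `p ≤ z(n + 1)`, along the other integers.  With `z = 0`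
these are the models of Cramér and of Hawkins, with `z(n)` about `log n` it is Granville's
refinement, in which the irregularities of Maier's theorem are present.
Almost surely the statement of the question holds for every `k`, for the intervals of length `n` and
also for those of length `n ^ δ` next to `n²`, and the least threshold `N(k)` is `~ 2 k log k`.
-/

set_option autoImplicit false

open MeasureTheory Filter Set ProbabilityTheory
open scoped Topology

namespace Pool.Agent.Results.MP_1e9cc8_nt.SievedModels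

variable {Ω : Type}

/-- `n` has no prime factor at most `z` -/
def Sifted (z n : ℕ) : Prop := ∀ p : ℕ, p.Prime → p ≤ z → ¬ p ∣ n

/-- `∏ (1 - 1/p)` over the primes `p ≤ z` -/
noncomputable def mertens (z : ℕ) : ℝ := ∏ p ∈ (Finset.Icc 1 z).filter Nat.Prime, (1 - 1 / (p : ℝ))

/-- `A n` is the event that `n` is chosen.  The events are adapted to the filtration `ℱ`; an integer
`n` with a prime factor at most `z n` is never chosen; and the conditional probability of `A (n + 1)`
given `ℱ n`, times `log n` and times `∏ (1 - 1/p)`, `p ≤ z (n + 1)`, tends to `1` almost surely when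
`n` tends to infinity in such a way that `n + 1` has no prime factor at most `z (n + 1)`. -/
def SievedModel [m : MeasurableSpace Ω] (μ : Measure Ω) (ℱ : Filtration ℕ m) (z : ℕ → ℕ) (A : ℕ → Set Ω) : Prop :=
  (∀ n, MeasurableSet[ℱ n] (A n)) ∧ (∀ n, ¬ Sifted (z n) n → A n = ∅) ∧
  ∀ᵐ ω ∂μ, Tendsto (fun n : ℕ => (μ[(A (n + 1)).indicator (fun _ => (1 : ℝ)) | ℱ n]) ω * (Real.log n * mertens (z (n + 1))))
    (atTop ⊓ 𝓟 {n : ℕ | Sifted (z (n + 1)) (n + 1)}) (𝓝 1)

/-- The independent models: the integers with a prime factor at most `z n` are not chosen, the other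
large integers `n` are chosen independently with probability `1 / (log n ∏ (1 - 1/p))`, `p ≤ z n`.
(Cramér: `z = 0`; Granville: `z n` of the order of `log n`.) -/
def IndependentModel [MeasurableSpace Ω] (μ : Measure Ω) (z : ℕ → ℕ) (A : ℕ → Set Ω) : Prop :=
  (∀ n, MeasurableSet (A n)) ∧ iIndepSet A μ ∧ (∀ n, ¬ Sifted (z n) n → A n = ∅) ∧
  ∀ᶠ n : ℕ in atTop, Sifted (z n) n → μ (A n) = ENNReal.ofReal (1 / (Real.log n * mertens (z n)))

open Classical in
/-- The random sieve of Hawkins: `2` is chosen, and given the decisions up to `n ≥ 2` the number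
`n + 1` is chosen with probability `∏ (1 - 1 / h)`, the product over the chosen `2 ≤ h ≤ n`. -/
def HawkinsSieve [m : MeasurableSpace Ω] (μ : Measure Ω) (ℱ : Filtration ℕ m) (A : ℕ → Set Ω) : Prop :=
  (∀ n, MeasurableSet[ℱ n] (A n)) ∧ A 2 = univ ∧
  ∀ n, 2 ≤ n → μ[(A (n + 1)).indicator (fun _ => (1 : ℝ)) | ℱ n] =ᵐ[μ]
    fun ω => ∏ h ∈ Finset.Icc 2 n, if ω ∈ A h then 1 - 1 / (h : ℝ) else 1

/-- the number of the members of `S` in the closed interval `[a, b]` -/
noncomputable def number (S : Set ℕ) (a b : ℕ) : ℕ := {q | q ∈ S ∧ a ≤ q ∧ q ≤ b}.ncard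

/-- for every `n > N` both intervals `[n² - n, n²]` and `[n², n² + n]` contain at least `k` members of `S` -/
def Oppermann (S : Set ℕ) (k N : ℕ) : Prop :=
  ∀ n, N < n → k ≤ number S (n ^ 2 - n) (n ^ 2) ∧ k ≤ number S (n ^ 2) (n ^ 2 + n)

/-- the least admissible threshold `N(k)` -/
noncomputable def threshold (S : Set ℕ) (k : ℕ) : ℕ := sInf {N | Oppermann S k N}

open Pool.Agent.N740.HK Pool.Agent.R528.RM

lemma prod_inv (A : ℕ → Set Ω) (n : ℕ) (ω : Ω) [DecidablePred fun h => ω ∈ A h] :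
    (∏ h ∈ Finset.Icc 2 n, if ω ∈ A h then 1 - 1 / (h : ℝ) else 1) = (Y A n ω)⁻¹ := by
  unfold Y
  rw [← Finset.prod_inv_distrib]
  refine Finset.prod_congr rfl fun h hh => ?_
  have h2 : (2 : ℝ) ≤ h := by exact_mod_cast (Finset.mem_Icc.1 hh).1
  by_cases hA : ω ∈ A h
  · rw [if_pos hA, if_pos hA, inv_div]
    field_simp
  · rw [if_neg hA, if_neg hA, inv_one]

lemma log_ratio : Tendsto (fun n : ℕ => (Real.log ((n + 1 : ℕ) : ℝ))⁻¹ * Real.log n) atTop (𝓝 1) := by
  have h1 : Tendsto (fun n : ℕ => Real.log ((n : ℝ) + 1) - Real.log n) atTop (𝓝 0) := by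
    have h1 : Tendsto (fun n : ℕ => 1 + (1 : ℝ) / n) atTop (𝓝 (1 + 0)) :=
      tendsto_const_nhds.add tendsto_one_div_atTop_nhds_zero_nat
    rw [add_zero] at h1
    have h2 := (Real.continuousAt_log (one_ne_zero)).tendsto.comp h1
    rw [Real.log_one] at h2
    refine h2.congr' ?_
    filter_upwards [eventually_gt_atTop 0] with n hn
    have hn' : (0 : ℝ) < n := by exact_mod_cast hn
    show Real.log (1 + 1 / (n : ℝ)) = _
    rw [← Real.log_div (by positivity) hn'.ne']
    congr 1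
    field_simp
  have h2 : Tendsto (fun n : ℕ => Real.log ((n : ℝ) + 1)) atTop atTop :=
    Real.tendsto_log_atTop.comp (tendsto_atTop_add_const_right _ _ tendsto_natCast_atTop_atTop)
  have h3 := h1.div_atTop h2
  have h4 : Tendsto (fun n : ℕ => 1 - (Real.log ((n : ℝ) + 1) - Real.log n) / Real.log ((n : ℝ) + 1)) atTop (𝓝 (1 - 0)) :=
    tendsto_const_nhds.sub h3
  rw [sub_zero] at h4
  refine h4.congr' ?_
  filter_upwards [h2.eventually_gt_atTop 0] with n hn
  push_cast
  field_simp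
  ring

lemma pow_div_log {δ : ℝ} (hδ : 0 < δ) : Tendsto (fun n : ℕ => (n : ℝ) ^ δ / Real.log n) atTop atTop := by
  have h1 : Tendsto (fun x : ℝ => Real.log x / x ^ δ) atTop (𝓝 0) := (isLittleO_log_rpow_atTop hδ).tendsto_div_nhds_zero
  have h2 : Tendsto (fun x : ℝ => Real.log x / x ^ δ) atTop (𝓝[>] 0) := by
    refine tendsto_nhdsWithin_iff.2 ⟨h1, ?_⟩
    filter_upwards [eventually_gt_atTop 1] with x hx
    have := Real.log_pos hx
    have h3 : 0 < x ^ δ := Real.rpow_pos_of_pos (by linarith) _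
    exact div_pos this h3
  refine (h2.inv_tendsto_nhdsGT_zero.comp tendsto_natCast_atTop_atTop).congr fun n => ?_
  simp only [Function.comp_apply, Pi.inv_apply, inv_div]

lemma short_k {S : Set ℕ} (hlaw : ∀ δ : ℝ, 0 < δ → ∀ ε : ℝ, 0 < ε → ∀ᶠ x : ℕ in atTop, ∀ H : ℕ,
      (x : ℝ) ^ δ ≤ H → H ≤ x → |(Pool.Agent.N317.SL.wcount S x H : ℝ) * Real.log x / H - 1| ≤ ε)
    {δ : ℝ} (hδ : 0 < δ) (k : ℕ) :
    ∀ᶠ n : ℕ in atTop, ∀ H : ℕ, (n : ℝ) ^ δ ≤ H → H ≤ n →
      k ≤ number S (n ^ 2 - H) (n ^ 2) ∧ k ≤ number S (n ^ 2) (n ^ 2 + H) := by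
  obtain ⟨X, hX⟩ := eventually_atTop.1 (hlaw (δ / 2) (by positivity) (1 / 2) (by norm_num))
  filter_upwards [(pow_div_log hδ).eventually_ge_atTop (4 * (k : ℝ)), eventually_ge_atTop (X + 2)] with n h1 h2 H h3 h4
  have hn : (2 : ℝ) ≤ n := by exact_mod_cast (by omega : 2 ≤ n)
  have hln : 0 < Real.log (n : ℝ) := Real.log_pos (by linarith)
  have key : ∀ x : ℕ, n ≤ x → x ≤ n ^ 2 → k ≤ Pool.Agent.N317.SL.wcount S x H := by
    intro x h5 h6
    have hx0 : (n : ℝ) ≤ x := by exact_mod_cast h5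
    have hx1 : (x : ℝ) ≤ (n : ℝ) ^ 2 := by exact_mod_cast h6
    have hlx : 0 < Real.log (x : ℝ) := Real.log_pos (by linarith)
    have hlx2 : Real.log (x : ℝ) ≤ 2 * Real.log n := by
      have := Real.log_le_log (by linarith) hx1
      rwa [Real.log_pow, Nat.cast_ofNat] at this
    have h7 : (x : ℝ) ^ (δ / 2) ≤ H := by
      refine le_trans ?_ h3
      calc (x : ℝ) ^ (δ / 2) ≤ ((n : ℝ) ^ (2 : ℕ)) ^ (δ / 2) :=
            Real.rpow_le_rpow (by linarith) hx1 (by positivity)
        _ = (n : ℝ) ^ δ := by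
            rw [← Real.rpow_natCast, ← Real.rpow_mul (by linarith)]
            congr 1
            push_cast
            ring
    have h8 := hX x (by omega) H h7 (by omega)
    have hH : (0 : ℝ) < H := lt_of_lt_of_le (Real.rpow_pos_of_pos (by linarith) _) h3
    have h9 := (abs_le.1 h8).1
    have h10 : (1 : ℝ) / 2 ≤ (Pool.Agent.N317.SL.wcount S x H : ℝ) * Real.log x / H := by linarith
    rw [le_div_iff₀ hH] at h10
    rw [le_div_iff₀ hln] at h1
    have h11 : (k : ℝ) ≤ (Pool.Agent.N317.SL.wcount S x H : ℝ) := by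
      obtain ⟨c, hc⟩ : ∃ c : ℝ, c = (Pool.Agent.N317.SL.wcount S x H : ℝ) := ⟨_, rfl⟩
      rw [← hc] at h10 ⊢
      have hc0 : 0 ≤ c := by rw [hc]; positivity
      have h12 : 4 * (k : ℝ) * Real.log n ≤ 4 * c * Real.log n := by nlinarith
      nlinarith [le_of_mul_le_mul_right h12 hln]
    exact_mod_cast h11
  have h5 : n ≤ n ^ 2 := Nat.le_self_pow two_ne_zero n
  have h6 : n + n ≤ n ^ 2 := by nlinarith [h2]
  constructor
  · have h7 := key (n ^ 2 - H) (by omega) (by omega)
    have h8 := (Pool.Agent.N317.SL.closed_window S (n ^ 2 - H) H).1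
    rw [Nat.sub_add_cancel (by omega)] at h8
    exact h7.trans h8
  · exact (key (n ^ 2) h5 le_rfl).trans (Pool.Agent.N317.SL.closed_window S (n ^ 2) H).1

end Pool.Agent.Results.MP_1e9cc8_nt.SievedModels

open Pool.Agent.Results.MP_1e9cc8_nt.SievedModels Pool.Agent.N740.HK Pool.Agent.R528.RM

/-- The independent models are sieved models for some filtration and Hawkins' sieve is one with `z = 0`.
In every sieved model with a nondecreasing `z(n) ≤ (log n)^κ` (for large `n`, any `κ`), almost surely: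
for every `k` there is `N` such that for all `n > N` both `[n² - n, n²]` and `[n², n² + n]` contain at
least `k` chosen integers; the least such threshold `N(k)` is asymptotic to `2 k log k`; both numbers of
chosen integers are asymptotic to `n / (2 log n)`; and for every `δ > 0`, every `k` and all large `n`
already `[n² - H, n²]` and `[n², n² + H]` contain at least `k` chosen integers for all `n ^ δ ≤ H ≤ n`. -/
theorem Pool.Agent.Results.MP_1e9cc8_nt.SievedModels.result :
    (∀ {Ω : Type} [m : MeasurableSpace Ω] (μ : Measure Ω) [IsProbabilityMeasure μ] (A : ℕ → Set Ω),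
      (∀ z : ℕ → ℕ, IndependentModel μ z A → ∃ ℱ : Filtration ℕ m, SievedModel μ ℱ z A) ∧
      (∀ ℱ : Filtration ℕ m, HawkinsSieve μ ℱ A → SievedModel μ ℱ (fun _ => 0) A)) ∧
    (∀ {Ω : Type} [m : MeasurableSpace Ω] (μ : Measure Ω) [IsProbabilityMeasure μ] (A : ℕ → Set Ω)
      (ℱ : Filtration ℕ m) (z : ℕ → ℕ) (κ : ℝ), Monotone z → (∀ᶠ n : ℕ in atTop, (z n : ℝ) ≤ Real.log n ^ κ) →
      SievedModel μ ℱ z A →
      ∀ᵐ ω ∂μ,
        (∀ k : ℕ, ∃ N : ℕ, Oppermann {k | ω ∈ A k} k N) ∧
        Tendsto (fun k : ℕ => (threshold {k | ω ∈ A k} k : ℝ) / (2 * k * Real.log k)) atTop (𝓝 1) ∧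
        Tendsto (fun n : ℕ => (number {k | ω ∈ A k} (n ^ 2 - n) (n ^ 2) : ℝ) * (2 * Real.log n) / n)
          atTop (𝓝 1) ∧
        Tendsto (fun n : ℕ => (number {k | ω ∈ A k} (n ^ 2) (n ^ 2 + n) : ℝ) * (2 * Real.log n) / n)
          atTop (𝓝 1) ∧
        (∀ δ : ℝ, 0 < δ → ∀ k : ℕ, ∀ᶠ n : ℕ in atTop, ∀ H : ℕ, (n : ℝ) ^ δ ≤ H → H ≤ n →
          k ≤ number {k | ω ∈ A k} (n ^ 2 - H) (n ^ 2) ∧ k ≤ number {k | ω ∈ A k} (n ^ 2) (n ^ 2 + H))) := by
  classical
  refine ⟨fun {Ω} m μ _ A => ⟨fun z => ?_, fun ℱ => ?_⟩, fun {Ω} m μ _ A ℱ z κ hz hzκ hM => ?_⟩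
  · rintro ⟨hA, hi, he, hp⟩
    refine ⟨gen hA, gen_meas hA, he, ?_⟩
    have h1 : ∀ᵐ ω ∂μ, ∀ n, (μ[(A (n + 1)).indicator (fun _ => (1 : ℝ)) | gen hA n]) ω =
        (μ (A (n + 1))).toReal := ae_all_iff.2 fun n => dens_gen hA hi n
    filter_upwards [h1] with ω hω
    refine (log_ratio.mono_left inf_le_left).congr' ?_
    rw [EventuallyEq, eventually_inf_principal]
    filter_upwards [eventually_ge_atTop 2, (tendsto_add_atTop_nat 1).eventually hp] with n hn hpn hf
    have hG : 0 < mertens (z (n + 1)) := GG_pos _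
    have hn' : (2 : ℝ) ≤ n := by exact_mod_cast hn
    have hL : 0 < Real.log ((n + 1 : ℕ) : ℝ) := Real.log_pos (by push_cast; linarith)
    rw [hω, hpn hf, ENNReal.toReal_ofReal (by positivity)]
    field_simp
  · rintro ⟨h1, h2, h3⟩
    have hs : Pool.Agent.N740.HK.HS μ ℱ A := ⟨h1, h2, fun n hn => by
      filter_upwards [h3 n hn] with ω hω
      rw [← prod_inv]
      exact hω⟩
    refine ⟨h1, fun n hn => absurd (fun p hp hp0 => absurd hp.pos (not_lt.2 hp0)) hn, ?_⟩
    filter_upwards [Pool.Agent.N740.HK.hawk_dens hs] with ω hω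
    have e : mertens 0 = 1 := by
      unfold mertens
      simp
    simp only [e, mul_one]
    exact hω.mono_left inf_le_left
  · filter_upwards [Pool.Agent.N317.SL.windows_law μ ℱ A z hM.1 hz hzκ hM.2.1 hM.2.2] with ω hω
    obtain ⟨h1, h2⟩ := Pool.Agent.N317.SL.oppermann_law hω
    have e1 : Tendsto (fun n : ℕ => (number {k | ω ∈ A k} (n ^ 2 - n) (n ^ 2) : ℝ) * (2 * Real.log n) / n)
        atTop (𝓝 1) := by
      refine h1.congr fun n => ?_
      unfold number
      ring
    have e2 : Tendsto (fun n : ℕ => (number {k | ω ∈ A k} (n ^ 2) (n ^ 2 + n) : ℝ) * (2 * Real.log n) / n)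
        atTop (𝓝 1) := by
      refine h2.congr fun n => ?_
      unfold number
      ring
    obtain ⟨h3, h4⟩ := Pool.Agent.N886.SM.opp_thr e1 e2
    refine ⟨h3, h4, e1, e2, fun δ hδ k => ?_⟩
    exact short_k hω hδ k
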